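import Mathlib

set_option autoImplicit false

namespace Pool.Agent.P.MP_c8d2d2_an

open Finset

/-- Abel summation. -/
lemma abel_sum (x u s : ℕ → ℝ) (hs : ∀ k, s k = ∑ j ∈ range k, u (j + 1)) (N : ℕ) :
    ∑ k ∈ range N, (x (k + 1) - x k) * s k
      = ∑ k ∈ range N, u (k + 1) * (x N - x (k + 1)) := by
  induction N with
  | zero => simp
  | succ N ih =>
    rw [sum_range_succ, ih, sum_range_succ, hs N]
    simp only [sub_self, mul_zero, add_zero]
    rw [mul_sum, ← sum_add_distrib]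
    exact sum_congr rfl fun k _ => by ring

lemma abs_sum (x u s : ℕ → ℝ) (hx : Monotone x)
    (hs : ∀ k, s k = ∑ j ∈ range k, u (j + 1)) (N : ℕ) :
    ∑ k ∈ range N, ∑ m ∈ range N, u (k + 1) * u (m + 1) * |x (k + 1) - x (m + 1)|
      = 2 * ∑ k ∈ range N, (x (k + 1) - x k) * s k * (s N - s k) := by
  induction N with
  | zero => simp
  | succ N ih =>
    have hA := abel_sum x u s hs (N + 1)
    have hsN : s (N + 1) = s N + u (N + 1) := by rw [hs (N + 1), sum_range_succ, ← hs N]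
    have h1 : ∀ k ∈ range N, ∑ m ∈ range (N + 1), u (k + 1) * u (m + 1) * |x (k + 1) - x (m + 1)|
        = ∑ m ∈ range N, u (k + 1) * u (m + 1) * |x (k + 1) - x (m + 1)|
          + u (N + 1) * (u (k + 1) * (x (N + 1) - x (k + 1))) := by
      intro k hk
      have hk' : x (k + 1) ≤ x (N + 1) := hx (by have := mem_range.1 hk; omega)
      rw [sum_range_succ, abs_sub_comm, abs_of_nonneg (sub_nonneg.2 hk')]
      ring
    have h2 : ∑ m ∈ range (N + 1), u (N + 1) * u (m + 1) * |x (N + 1) - x (m + 1)|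
        = u (N + 1) * ∑ k ∈ range N, u (k + 1) * (x (N + 1) - x (k + 1)) := by
      rw [sum_range_succ, sub_self, abs_zero, mul_zero, add_zero, mul_sum]
      refine sum_congr rfl fun k hk => ?_
      have hk' : x (k + 1) ≤ x (N + 1) := hx (by have := mem_range.1 hk; omega)
      rw [abs_of_nonneg (sub_nonneg.2 hk')]
      ring
    have h3 : ∑ k ∈ range (N + 1), (x (k + 1) - x k) * s k * (s (N + 1) - s k)
        = ∑ k ∈ range N, (x (k + 1) - x k) * s k * (s N - s k)
          + u (N + 1) * ∑ k ∈ range (N + 1), (x (k + 1) - x k) * s k := by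
      have : ∑ k ∈ range N, (x (k + 1) - x k) * s k * (s N - s k)
          = ∑ k ∈ range (N + 1), (x (k + 1) - x k) * s k * (s N - s k) := by
        rw [sum_range_succ]; ring
      rw [this, mul_sum, ← sum_add_distrib]
      exact sum_congr rfl fun k _ => by rw [hsN]; ring
    rw [sum_range_succ, sum_congr rfl h1, h2, sum_add_distrib, ih, h3, hA, ← mul_sum,
      sum_range_succ (fun k => u (k + 1) * (x (N + 1) - x (k + 1)))]
    ring

/-- Energy of a neutral charge distribution is the variance of its cumulative charge. -/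
lemma rank_one_energy (x u s : ℕ → ℝ) (hx : Monotone x)
    (hs : ∀ k, s k = ∑ j ∈ range k, u (j + 1)) (N : ℕ) (hN : s N = 0) :
    ∑ k ∈ range N, ∑ m ∈ range N, u (k + 1) * u (m + 1) *
        (1 / 2 * |x (k + 1) - x (m + 1)| ^ 2 - 1 / 2 * |x (k + 1) - x (m + 1)| + 1 / 12)
      = ∑ k ∈ range N, (x (k + 1) - x k) * s k ^ 2
        - (∑ k ∈ range N, (x (k + 1) - x k) * s k) ^ 2 := by
  have hA := abel_sum x u s hs N
  have hB := abs_sum x u s hx hs N
  have hU : ∑ k ∈ range N, u (k + 1) = 0 := by rw [← hs N, hN]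
  set P := ∑ k ∈ range N, u (k + 1) * x (k + 1) with hP
  set Q := ∑ k ∈ range N, u (k + 1) * x (k + 1) ^ 2 with hQ
  have hA' : ∑ k ∈ range N, (x (k + 1) - x k) * s k = -P := by
    rw [hA]
    have : ∑ k ∈ range N, u (k + 1) * (x N - x (k + 1))
        = x N * ∑ k ∈ range N, u (k + 1) - P := by
      rw [hP, mul_sum, ← sum_sub_distrib]
      exact sum_congr rfl fun k _ => by ring
    rw [this, hU]; ring
  have hB' : ∑ k ∈ range N, (x (k + 1) - x k) * s k * (s N - s k)
      = -∑ k ∈ range N, (x (k + 1) - x k) * s k ^ 2 := by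
    rw [← sum_neg_distrib]
    exact sum_congr rfl fun k _ => by rw [hN]; ring
  have hrow : ∀ k ∈ range N, ∑ m ∈ range N, u (k + 1) * u (m + 1) *
        (1 / 2 * |x (k + 1) - x (m + 1)| ^ 2 - 1 / 2 * |x (k + 1) - x (m + 1)| + 1 / 12)
      = u (k + 1) * (Q / 2) - u (k + 1) * x (k + 1) * P
        - 1 / 2 * ∑ m ∈ range N, u (k + 1) * u (m + 1) * |x (k + 1) - x (m + 1)| := by
    intro k _
    have : ∑ m ∈ range N, u (k + 1) * u (m + 1) *
        (1 / 2 * |x (k + 1) - x (m + 1)| ^ 2 - 1 / 2 * |x (k + 1) - x (m + 1)| + 1 / 12)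
        = (u (k + 1) * (x (k + 1) ^ 2 / 2 + 1 / 12)) * ∑ m ∈ range N, u (m + 1)
          + u (k + 1) / 2 * ∑ m ∈ range N, u (m + 1) * x (m + 1) ^ 2
          - u (k + 1) * x (k + 1) * ∑ m ∈ range N, u (m + 1) * x (m + 1)
          - 1 / 2 * ∑ m ∈ range N, u (k + 1) * u (m + 1) * |x (k + 1) - x (m + 1)| := by
      simp only [mul_sum, ← sum_add_distrib, ← sum_sub_distrib]
      refine sum_congr rfl fun m _ => ?_
      rw [sq_abs]; ring
    rw [this, hU, ← hP, ← hQ]; ring
  rw [sum_congr rfl hrow, sum_sub_distrib, sum_sub_distrib, ← mul_sum, hB, hB', hA', ← sum_mul,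
    ← sum_mul, hU, ← hP]
  ring

lemma var_eq (L s : ℕ → ℝ) (N : ℕ) (hL : ∑ k ∈ range N, L k = 1) (c : ℝ) :
    ∑ k ∈ range N, L k * (s k - c) ^ 2
      = ∑ k ∈ range N, L k * s k ^ 2 - (∑ k ∈ range N, L k * s k) ^ 2
        + (∑ k ∈ range N, L k * s k - c) ^ 2 := by
  have : ∑ k ∈ range N, L k * (s k - c) ^ 2
      = ∑ k ∈ range N, L k * s k ^ 2 - 2 * c * ∑ k ∈ range N, L k * s k
        + c ^ 2 * ∑ k ∈ range N, L k := by
    simp only [mul_sum, ← sum_add_distrib, ← sum_sub_distrib]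
    exact sum_congr rfl fun k _ => by ring
  rw [this, hL]; ring

lemma sum_shift (F : ℕ → ℝ) (N : ℕ) (h : F 0 = F N) :
    ∑ k ∈ range N, F k = ∑ k ∈ range N, F (k + 1) := by
  have h1 := sum_range_succ F N
  have h2 := sum_range_succ' F N
  linarith

lemma mid_form (ν : ℝ) (ω q : Fin 3 → ℝ) (i : ℕ → Fin 3) (x s : ℕ → ℝ) (N : ℕ)
    (hi : i 0 = i N) (hs0 : s 0 = s N)
    (hx : ∀ k, x (k + 1) = x k + (ω (i k) + ω (i (k + 1))) / (2 * ν))
    (hs : ∀ k, s (k + 1) = s k + q (i (k + 1))) (c : ℝ) :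
    ∑ k ∈ range N, (x (k + 1) - x k) * (s k - c) ^ 2
      = 1 / (2 * ν) * ∑ k ∈ range N, ω (i (k + 1)) *
          (2 * (s k + q (i (k + 1)) / 2 - c) ^ 2 + q (i (k + 1)) ^ 2 / 2) := by
  have h1 := sum_shift (fun k => ω (i k) * (s k - c) ^ 2) N (by simp only [hi, hs0])
  have h2 : ∑ k ∈ range N, (x (k + 1) - x k) * (s k - c) ^ 2
      = 1 / (2 * ν) * (∑ k ∈ range N, ω (i k) * (s k - c) ^ 2
          + ∑ k ∈ range N, ω (i (k + 1)) * (s k - c) ^ 2) := by
    rw [← sum_add_distrib, mul_sum]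
    exact sum_congr rfl fun k _ => by rw [hx k]; ring
  rw [h2, h1, ← sum_add_distrib]
  congr 1
  exact sum_congr rfl fun k _ => by rw [hs k]; ring

lemma total_length (ν : ℝ) (hν : 0 < ν) (ω : Fin 3 → ℝ) (hω : ω 0 + ω 1 + ω 2 = 1)
    (i : ℕ → Fin 3) (x : ℕ → ℝ) (N : ℕ) (hi : i 0 = i N)
    (hx : ∀ k, x (k + 1) = x k + (ω (i k) + ω (i (k + 1))) / (2 * ν))
    (hcnt : ∀ F : Fin 3 → ℝ, ∑ k ∈ range N, F (i (k + 1)) = ν * (F 0 + F 1 + F 2)) :
    ∑ k ∈ range N, (x (k + 1) - x k) = 1 := by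
  have h1 := sum_shift (fun k => ω (i k)) N (by simp only [hi])
  have h2 : ∑ k ∈ range N, (x (k + 1) - x k)
      = 1 / (2 * ν) * (∑ k ∈ range N, ω (i k) + ∑ k ∈ range N, ω (i (k + 1))) := by
    rw [← sum_add_distrib, mul_sum]
    exact sum_congr rfl fun k _ => by rw [hx k]; ring
  rw [h2, h1, hcnt ω, hω]
  field_simp
  ring

lemma exists_antiderivative (g : ℤ → ℝ) : ∃ Φ : ℤ → ℝ, ∀ z, Φ (z + 1) = Φ z + g z := by
  refine ⟨fun z => match z with
    | Int.ofNat m => ∑ j ∈ range m, g j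
    | Int.negSucc m => -∑ j ∈ range (m + 1), g (Int.negSucc j), fun z => ?_⟩
  rcases z with m | m
  · show ∑ j ∈ range (m + 1), g j = ∑ j ∈ range m, g j + g m
    rw [sum_range_succ]
  · rcases m with _ | m
    · show ∑ j ∈ range 0, g j = -∑ j ∈ range (0 + 1), g (Int.negSucc j) + g (Int.negSucc 0)
      simp
    · show -∑ j ∈ range (m + 1), g (Int.negSucc j)
        = -∑ j ∈ range (m + 1 + 1), g (Int.negSucc j) + g (Int.negSucc (m + 1))
      rw [sum_range_succ _ (m + 1)]; ring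

lemma half_le_abs (r : ℤ) : (1 : ℝ) / 2 ≤ |(r : ℝ) + 1 / 2| := by
  rcases le_or_gt 0 r with h | h
  · have : (0 : ℝ) ≤ r := by exact_mod_cast h
    rw [abs_of_nonneg (by linarith)]; linarith
  · have : (r : ℝ) ≤ -1 := by exact_mod_cast (show r ≤ -1 by omega)
    rw [abs_of_nonpos (by linarith)]; linarith

/-- The matching inequality: steps of type `A` and of type `B` are matched by the height. -/
lemma pairing (ν : ℝ) (q : Fin 3 → ℝ) (i : ℕ → Fin 3) (s : ℕ → ℝ) (N : ℕ) (A B C : Fin 3)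
    (hAB : A ≠ B) (hAC : A ≠ C) (hBC : B ≠ C) (hall : ∀ t, t = A ∨ t = B ∨ t = C)
    (hq : q A + q B + q C = 0) (hs0 : s 0 = 0)
    (hs : ∀ k, s (k + 1) = s k + q (i (k + 1)))
    (hcnt : ∀ F : Fin 3 → ℝ, ∑ k ∈ range N, F (i (k + 1)) = ν * (F A + F B + F C)) (c : ℝ) :
    ν * (|q C| / 2) ≤
      ∑ k ∈ range N, (if i (k + 1) = A then |s k + q (i (k + 1)) / 2 - c| else 0)
        + ∑ k ∈ range N, (if i (k + 1) = B then |s k + q (i (k + 1)) / 2 - c| else 0) := by
  classical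
  let e : Fin 3 → ℤ := fun t => if t = A then 1 else if t = B then -1 else 0
  have eA : e A = 1 := by simp [e]
  have eB : e B = -1 := by simp [e, hAB.symm]
  have eC : e C = 0 := by simp [e, hAC.symm, hBC.symm]
  let h : ℕ → ℤ := fun k => ∑ j ∈ range k, e (i (j + 1))
  have hsucc : ∀ k, h (k + 1) = h k + e (i (k + 1)) := fun k => sum_range_succ _ _
  have h0 : h 0 = 0 := by simp [h]
  have hN : h N = 0 := by
    have := hcnt (fun t => (e t : ℝ))
    simp only [eA, eB, eC] at this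
    have h2 : ((h N : ℤ) : ℝ) = 0 := by
      simp only [h]; push_cast; rw [this]; push_cast; ring
    exact_mod_cast h2
  have hpos : ∀ k, ∃ r : ℤ, s k = h k * q A + r * q C := by
    intro k
    induction k with
    | zero => exact ⟨0, by simp [hs0, h0]⟩
    | succ k ih =>
      obtain ⟨r, hr⟩ := ih
      rcases hall (i (k + 1)) with ht | ht | ht
      · exact ⟨r, by rw [hs, hsucc, ht, eA, hr]; push_cast; ring⟩
      · exact ⟨r - 1, by
          rw [hs, hsucc, ht, eB, hr]; push_cast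
          have : q B = -q A - q C := by linarith
          rw [this]; ring⟩
      · exact ⟨r + 1, by rw [hs, hsucc, ht, eC, hr]; push_cast; ring⟩
  let g : ℤ → ℝ := fun z => ⨅ r : ℤ, |((z : ℝ) + 1 / 2) * q A - c + r * q C|
  have hg1 : ∀ (z r : ℤ), g z ≤ |((z : ℝ) + 1 / 2) * q A - c + r * q C| := fun z r =>
    ciInf_le ⟨0, by rintro _ ⟨r, rfl⟩; exact abs_nonneg _⟩ r
  have hg2 : ∀ (z r : ℤ), |q C| / 2 - |((z : ℝ) + 1 / 2) * q A - c + (r - 1 / 2) * q C| ≤ g z := by
    intro z r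
    refine le_ciInf fun r' => ?_
    have h1 := half_le_abs (r' - r)
    have h2 : |(((r' - r : ℤ) : ℝ) + 1 / 2) * q C|
        ≤ |((z : ℝ) + 1 / 2) * q A - c + r' * q C|
          + |((z : ℝ) + 1 / 2) * q A - c + (r - 1 / 2) * q C| := by
      have : (((r' - r : ℤ) : ℝ) + 1 / 2) * q C
          = (((z : ℝ) + 1 / 2) * q A - c + r' * q C)
            - (((z : ℝ) + 1 / 2) * q A - c + (r - 1 / 2) * q C) := by
        push_cast; ring
      rw [this]; exact abs_sub _ _
    rw [abs_mul] at h2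
    nlinarith [abs_nonneg (q C)]
  obtain ⟨Φ, hΦ⟩ := exists_antiderivative g
  have hstep : ∀ k ∈ range N,
      (Φ (h (k + 1)) - Φ (h k)) + (if i (k + 1) = B then |q C| / 2 else 0)
        ≤ (if i (k + 1) = A then |s k + q (i (k + 1)) / 2 - c| else 0)
          + (if i (k + 1) = B then |s k + q (i (k + 1)) / 2 - c| else 0) := by
    intro k _
    obtain ⟨r, hr⟩ := hpos k
    rcases hall (i (k + 1)) with ht | ht | ht
    · rw [hsucc, ht, eA, hΦ, if_neg hAB, if_pos rfl, if_neg hAB, hr]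
      have := hg1 (h k) r
      have e1 : (h k : ℝ) * q A + r * q C + q A / 2 - c
          = ((h k : ℝ) + 1 / 2) * q A - c + r * q C := by ring
      rw [e1]; linarith
    · rw [hsucc, ht, eB, if_pos rfl, if_neg hAB.symm, if_pos rfl, hr]
      have h1 := hΦ (h k + -1)
      have h2 := hg2 (h k + -1) r
      have e0 : h k + -1 + 1 = h k := by ring
      rw [e0] at h1
      have e1 : (h k : ℝ) * q A + r * q C + q B / 2 - c
          = (((h k + -1 : ℤ) : ℝ) + 1 / 2) * q A - c + (r - 1 / 2) * q C := by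
        have : q B = -q A - q C := by linarith
        rw [this]; push_cast; ring
      rw [e1]; linarith
    · rw [hsucc, ht, eC, if_neg hBC.symm, if_neg hAC.symm, if_neg hBC.symm]
      simp
  have hsum := sum_le_sum hstep
  rw [sum_add_distrib, sum_add_distrib, sum_range_sub (fun k => Φ (h k)), hN, h0,
    hcnt (fun t => if t = B then |q C| / 2 else 0)] at hsum
  simp only [if_neg hAB, if_neg hBC.symm, if_true] at hsum
  linarith

end Pool.Agent.P.MP_c8d2d2_an
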