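import Mathlib
import Pool.Agent.P.MP_c8d2d2_an.Core

set_option autoImplicit false

namespace Pool.Agent.P.MP_c8d2d2_an

open Finset

lemma helly3 (p0 p1 p2 a0 a1 a2 : ℝ) (h0 : 0 ≤ a0) (h1 : 0 ≤ a1) (h2 : 0 ≤ a2)
    (h01 : |p0 - p1| ≤ a0 + a1) (h02 : |p0 - p2| ≤ a0 + a2) (h12 : |p1 - p2| ≤ a1 + a2) :
    ∃ τ : ℝ, (p0 - τ) ^ 2 ≤ a0 ^ 2 ∧ (p1 - τ) ^ 2 ≤ a1 ^ 2 ∧ (p2 - τ) ^ 2 ≤ a2 ^ 2 := by
  rw [abs_le] at h01 h02 h12
  have key : ∃ τ : ℝ, (p0 - a0 ≤ τ ∧ p1 - a1 ≤ τ ∧ p2 - a2 ≤ τ) ∧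
      (τ ≤ p0 + a0 ∧ τ ≤ p1 + a1 ∧ τ ≤ p2 + a2) := by
    refine ⟨max (p0 - a0) (max (p1 - a1) (p2 - a2)),
      ⟨le_max_left _ _, (le_max_left _ _).trans (le_max_right _ _),
        (le_max_right _ _).trans (le_max_right _ _)⟩, ?_, ?_, ?_⟩ <;>
    refine max_le ?_ (max_le ?_ ?_) <;> linarith [h01.1, h01.2, h02.1, h02.2, h12.1, h12.2]
  obtain ⟨τ, ⟨l0, l1, l2⟩, u0, u1, u2⟩ := key
  exact ⟨τ, sq_le_sq' (by linarith) (by linarith), sq_le_sq' (by linarith) (by linarith),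
    sq_le_sq' (by linarith) (by linarith)⟩

/-- Lower bound for the weighted second moment of the step midpoints of a balanced closed walk. -/
lemma lower_bound (ν : ℝ) (hν : 0 < ν) (ω q : Fin 3 → ℝ) (hω : ∀ t, 0 ≤ ω t)
    (hq : q 0 + q 1 + q 2 = 0) (i : ℕ → Fin 3) (s : ℕ → ℝ) (N : ℕ) (hs0 : s 0 = 0)
    (hs : ∀ k, s (k + 1) = s k + q (i (k + 1)))
    (hcnt : ∀ F : Fin 3 → ℝ, ∑ k ∈ range N, F (i (k + 1)) = ν * (F 0 + F 1 + F 2)) (c : ℝ) :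
    ∃ τ : ℝ, ν * (ω 0 * (q 0 / 2 - τ) ^ 2 + ω 1 * (q 0 + q 1 / 2 - τ) ^ 2
        + ω 2 * (q 0 + q 1 + q 2 / 2 - τ) ^ 2)
      ≤ ∑ k ∈ range N, ω (i (k + 1)) * (s k + q (i (k + 1)) / 2 - c) ^ 2 := by
  classical
  let y : ℕ → ℝ := fun k => s k + q (i (k + 1)) / 2 - c
  let S : Fin 3 → ℝ := fun t => ∑ k ∈ range N, (if i (k + 1) = t then |y k| else 0)
  have hS : ∀ t, 0 ≤ S t := fun t => sum_nonneg fun k _ => by
    split_ifs
    · exact abs_nonneg _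
    · exact le_rfl
  let a : Fin 3 → ℝ := fun t => S t / ν
  have ha : ∀ t, 0 ≤ a t := fun t => div_nonneg (hS t) hν.le
  have haS : ∀ t, S t = ν * a t := fun t => by simp only [a]; field_simp
  have p01 : ν * (|q 2| / 2) ≤ S 0 + S 1 :=
    pairing ν q i s N 0 1 2 (by decide) (by decide) (by decide) (by decide) hq hs0 hs hcnt c
  have p02 : ν * (|q 1| / 2) ≤ S 0 + S 2 :=
    pairing ν q i s N 0 2 1 (by decide) (by decide) (by decide) (by decide) (by linarith) hs0 hs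
      (fun F => by rw [hcnt F]; ring) c
  have p12 : ν * (|q 0| / 2) ≤ S 1 + S 2 :=
    pairing ν q i s N 1 2 0 (by decide) (by decide) (by decide) (by decide) (by linarith) hs0 hs
      (fun F => by rw [hcnt F]; ring) c
  rw [haS, haS, ← mul_add] at p01 p02 p12
  have q01 := le_of_mul_le_mul_left p01 hν
  have q02 := le_of_mul_le_mul_left p02 hν
  have q12 := le_of_mul_le_mul_left p12 hν
  obtain ⟨τ, t0, t1, t2⟩ := helly3 (q 0 / 2) (q 0 + q 1 / 2) (q 0 + q 1 + q 2 / 2)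
    (a 0) (a 1) (a 2) (ha 0) (ha 1) (ha 2)
    (by
      have : q 0 / 2 - (q 0 + q 1 / 2) = q 2 / 2 := by linarith
      rw [this, abs_div, abs_two]; exact q01)
    (by
      have : q 0 / 2 - (q 0 + q 1 + q 2 / 2) = -(q 1 / 2) := by linarith
      rw [this, abs_neg, abs_div, abs_two]; exact q02)
    (by
      have : q 0 + q 1 / 2 - (q 0 + q 1 + q 2 / 2) = q 0 / 2 := by linarith
      rw [this, abs_div, abs_two]; exact q12)
  refine ⟨τ, ?_⟩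
  have hstep : ∀ k ∈ range N,
      2 * ω 0 * a 0 * (if i (k + 1) = 0 then |y k| else 0)
        + 2 * ω 1 * a 1 * (if i (k + 1) = 1 then |y k| else 0)
        + 2 * ω 2 * a 2 * (if i (k + 1) = 2 then |y k| else 0)
        - ω (i (k + 1)) * a (i (k + 1)) ^ 2
      ≤ ω (i (k + 1)) * y k ^ 2 := by
    intro k _
    have hk : ∀ t : Fin 3, 2 * ω t * a t * |y k| - ω t * a t ^ 2 ≤ ω t * y k ^ 2 := by
      intro t
      have := mul_nonneg (hω t) (sq_nonneg (|y k| - a t))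
      rw [← sq_abs (y k)]
      nlinarith
    have hall : ∀ t : Fin 3, t = 0 ∨ t = 1 ∨ t = 2 := by decide
    rcases hall (i (k + 1)) with ht | ht | ht
    · have := hk 0
      rw [ht, if_pos rfl, if_neg (by decide), if_neg (by decide)]; linarith
    · have := hk 1
      rw [ht, if_neg (by decide), if_pos rfl, if_neg (by decide)]; linarith
    · have := hk 2
      rw [ht, if_neg (by decide), if_neg (by decide), if_pos rfl]; linarith
  have hsum := sum_le_sum hstep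
  rw [sum_sub_distrib, sum_add_distrib, sum_add_distrib, ← mul_sum, ← mul_sum, ← mul_sum,
    hcnt (fun t => ω t * a t ^ 2)] at hsum
  change 2 * ω 0 * a 0 * S 0 + 2 * ω 1 * a 1 * S 1 + 2 * ω 2 * a 2 * S 2 - _ ≤ _ at hsum
  rw [haS, haS, haS] at hsum
  have m0 := mul_le_mul_of_nonneg_left t0 (hω 0)
  have m1 := mul_le_mul_of_nonneg_left t1 (hω 1)
  have m2 := mul_le_mul_of_nonneg_left t2 (hω 2)
  have m := mul_le_mul_of_nonneg_left (add_le_add (add_le_add m0 m1) m2) hν.le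
  calc _ ≤ _ := m
    _ = _ := by ring
    _ ≤ _ := hsum

/-- The comparison for a rank-one interaction matrix. -/
lemma rank_one_compare (ν : ℝ) (hν : 0 < ν) (ω q : Fin 3 → ℝ) (hω : ∀ t, 0 ≤ ω t)
    (hω1 : ω 0 + ω 1 + ω 2 = 1) (hq : q 0 + q 1 + q 2 = 0) (N : ℕ)
    (i : ℕ → Fin 3) (x : ℕ → ℝ) (hi : i 0 = i N)
    (hx : ∀ k, x (k + 1) = x k + (ω (i k) + ω (i (k + 1))) / (2 * ν))
    (hcnt : ∀ F : Fin 3 → ℝ, ∑ k ∈ range N, F (i (k + 1)) = ν * (F 0 + F 1 + F 2))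
    (i' : ℕ → Fin 3) (x' : ℕ → ℝ) (hi' : i' 0 = i' N)
    (hx' : ∀ k, x' (k + 1) = x' k + (ω (i' k) + ω (i' (k + 1))) / (2 * ν))
    (hcnt' : ∀ F : Fin 3 → ℝ, ∑ k ∈ range N, F (i' (k + 1)) = ν * (F 0 + F 1 + F 2))
    (hcyc : ∀ k, ∑ j ∈ range k, q (i' (j + 1)) + q (i' (k + 1)) / 2
      = ![q 0 / 2, q 0 + q 1 / 2, q 0 + q 1 + q 2 / 2] (i' (k + 1))) :
    ∑ k ∈ range N, ∑ m ∈ range N, q (i' (k + 1)) * q (i' (m + 1)) *
        (1 / 2 * |x' (k + 1) - x' (m + 1)| ^ 2 - 1 / 2 * |x' (k + 1) - x' (m + 1)| + 1 / 12)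
      ≤ ∑ k ∈ range N, ∑ m ∈ range N, q (i (k + 1)) * q (i (m + 1)) *
        (1 / 2 * |x (k + 1) - x (m + 1)| ^ 2 - 1 / 2 * |x (k + 1) - x (m + 1)| + 1 / 12) := by
  have mono : ∀ (j : ℕ → Fin 3) (z : ℕ → ℝ),
      (∀ k, z (k + 1) = z k + (ω (j k) + ω (j (k + 1))) / (2 * ν)) → Monotone z := by
    intro j z hz
    refine monotone_nat_of_le_succ fun k => ?_
    rw [hz k]
    have := div_nonneg (add_nonneg (hω (j k)) (hω (j (k + 1)))) (by positivity : 0 ≤ 2 * ν)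
    linarith
  let s : ℕ → ℝ := fun k => ∑ j ∈ range k, q (i (j + 1))
  let s' : ℕ → ℝ := fun k => ∑ j ∈ range k, q (i' (j + 1))
  have hsN : s N = 0 := by simp only [s]; rw [hcnt q, hq, mul_zero]
  have hsN' : s' N = 0 := by simp only [s']; rw [hcnt' q, hq, mul_zero]
  have hs0 : s 0 = 0 := by simp [s]
  have hs0' : s' 0 = 0 := by simp [s']
  have hss : ∀ k, s (k + 1) = s k + q (i (k + 1)) := fun k => sum_range_succ _ _
  have hss' : ∀ k, s' (k + 1) = s' k + q (i' (k + 1)) := fun k => sum_range_succ _ _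
  have E := rank_one_energy x (fun k => q (i k)) s (mono i x hx) (fun _ => rfl) N hsN
  have E' := rank_one_energy x' (fun k => q (i' k)) s' (mono i' x' hx') (fun _ => rfl) N hsN'
  have hL := total_length ν hν ω hω1 i x N hi hx hcnt
  have hL' := total_length ν hν ω hω1 i' x' N hi' hx' hcnt'
  set c := ∑ k ∈ range N, (x (k + 1) - x k) * s k with hc
  obtain ⟨τ, hτ⟩ := lower_bound ν hν ω q hω hq i s N hs0 hss hcnt c
  have V := var_eq (fun k => x (k + 1) - x k) s N hL c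
  have V' := var_eq (fun k => x' (k + 1) - x' k) s' N hL' τ
  have M := mid_form ν ω q i x s N hi (by rw [hs0, hsN]) hx hss c
  have M' := mid_form ν ω q i' x' s' N hi' (by rw [hs0', hsN']) hx' hss' τ
  have R : ∑ k ∈ range N, ω (i (k + 1)) *
          (2 * (s k + q (i (k + 1)) / 2 - c) ^ 2 + q (i (k + 1)) ^ 2 / 2)
      = 2 * ∑ k ∈ range N, ω (i (k + 1)) * (s k + q (i (k + 1)) / 2 - c) ^ 2
        + ν * (ω 0 * q 0 ^ 2 / 2 + ω 1 * q 1 ^ 2 / 2 + ω 2 * q 2 ^ 2 / 2) := by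
    rw [← hcnt (fun t => ω t * q t ^ 2 / 2), mul_sum, ← sum_add_distrib]
    exact sum_congr rfl fun k _ => by ring
  have R' : ∑ k ∈ range N, ω (i' (k + 1)) *
          (2 * (s' k + q (i' (k + 1)) / 2 - τ) ^ 2 + q (i' (k + 1)) ^ 2 / 2)
      = 2 * (ν * (ω 0 * (q 0 / 2 - τ) ^ 2 + ω 1 * (q 0 + q 1 / 2 - τ) ^ 2
        + ω 2 * (q 0 + q 1 + q 2 / 2 - τ) ^ 2))
        + ν * (ω 0 * q 0 ^ 2 / 2 + ω 1 * q 1 ^ 2 / 2 + ω 2 * q 2 ^ 2 / 2) := by
    have h1 := hcnt' (fun t => ω t * (2 * (![q 0 / 2, q 0 + q 1 / 2, q 0 + q 1 + q 2 / 2] t - τ) ^ 2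
      + q t ^ 2 / 2))
    have h2 : ∑ k ∈ range N, ω (i' (k + 1)) *
          (2 * (s' k + q (i' (k + 1)) / 2 - τ) ^ 2 + q (i' (k + 1)) ^ 2 / 2)
        = ∑ k ∈ range N, ω (i' (k + 1)) *
          (2 * (![q 0 / 2, q 0 + q 1 / 2, q 0 + q 1 + q 2 / 2] (i' (k + 1)) - τ) ^ 2
            + q (i' (k + 1)) ^ 2 / 2) :=
      sum_congr rfl fun k _ => by rw [← hcyc k]
    rw [h2, h1]
    simp only [Matrix.cons_val_zero, Matrix.cons_val_one, Matrix.cons_val]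
    ring
  rw [E, E']
  rw [← hc, sub_self] at V
  have hpos : 0 ≤ 1 / (2 * ν) := by positivity
  have key : ∑ k ∈ range N, (x' (k + 1) - x' k) * (s' k - τ) ^ 2
      ≤ ∑ k ∈ range N, (x (k + 1) - x k) * (s k - c) ^ 2 := by
    rw [M, M', R, R']
    exact mul_le_mul_of_nonneg_left (by linarith) hpos
  nlinarith [sq_nonneg (∑ k ∈ range N, (x' (k + 1) - x' k) * s' k - τ)]

/-- An admissible matrix is a sum of rank-one matrices of neutral charge vectors. -/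
lemma admissible_decomp (f : Matrix (Fin 3) (Fin 3) ℝ) (hf : f.PosSemidef)
    (hf1 : f.mulVec (fun _ => 1) = 0) :
    ∃ (m : ℕ) (v : Fin m → Fin 3 → ℝ), (∀ r, v r 0 + v r 1 + v r 2 = 0) ∧
      ∀ a b, f a b = ∑ r, v r a * v r b := by
  obtain ⟨m, v, hv⟩ := Matrix.posSemidef_iff_eq_sum_vecMulVec.1 hf
  have hab : ∀ a b, f a b = ∑ r, v r a * v r b := by
    intro a b
    rw [hv, Matrix.sum_apply]
    exact sum_congr rfl fun r _ => by simp [Matrix.vecMulVec_apply]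
  refine ⟨m, v, ?_, hab⟩
  have hrow : ∀ a, f a 0 + f a 1 + f a 2 = 0 := by
    intro a
    have := congrFun hf1 a
    simpa [Matrix.mulVec, dotProduct, Fin.sum_univ_three] using this
  have hsq : ∑ r, (v r 0 + v r 1 + v r 2) ^ 2 = 0 := by
    have : ∑ r, (v r 0 + v r 1 + v r 2) ^ 2
        = (f 0 0 + f 0 1 + f 0 2) + (f 1 0 + f 1 1 + f 1 2) + (f 2 0 + f 2 1 + f 2 2) := by
      simp only [hab, ← sum_add_distrib]
      exact sum_congr rfl fun r _ => by ring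
    rw [this, hrow, hrow, hrow]; ring
  intro r
  have := (sum_eq_zero_iff_of_nonneg fun r _ => sq_nonneg (v r 0 + v r 1 + v r 2)).1 hsq r
    (mem_univ r)
  exact pow_eq_zero_iff (two_ne_zero) |>.1 this

/-- The comparison for an admissible matrix. -/
lemma compare (ν : ℝ) (hν : 0 < ν) (ω : Fin 3 → ℝ) (hω : ∀ t, 0 ≤ ω t)
    (hω1 : ω 0 + ω 1 + ω 2 = 1) (f : Matrix (Fin 3) (Fin 3) ℝ) (hf : f.PosSemidef)
    (hf1 : f.mulVec (fun _ => 1) = 0) (N : ℕ)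
    (i : ℕ → Fin 3) (x : ℕ → ℝ) (hi : i 0 = i N)
    (hx : ∀ k, x (k + 1) = x k + (ω (i k) + ω (i (k + 1))) / (2 * ν))
    (hcnt : ∀ F : Fin 3 → ℝ, ∑ k ∈ range N, F (i (k + 1)) = ν * (F 0 + F 1 + F 2))
    (i' : ℕ → Fin 3) (x' : ℕ → ℝ) (hi' : i' 0 = i' N)
    (hx' : ∀ k, x' (k + 1) = x' k + (ω (i' k) + ω (i' (k + 1))) / (2 * ν))
    (hcnt' : ∀ F : Fin 3 → ℝ, ∑ k ∈ range N, F (i' (k + 1)) = ν * (F 0 + F 1 + F 2))
    (hcyc : ∀ q : Fin 3 → ℝ, q 0 + q 1 + q 2 = 0 →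
      ∀ k, ∑ j ∈ range k, q (i' (j + 1)) + q (i' (k + 1)) / 2
      = ![q 0 / 2, q 0 + q 1 / 2, q 0 + q 1 + q 2 / 2] (i' (k + 1))) :
    ∑ k ∈ range N, ∑ m ∈ range N, f (i' (k + 1)) (i' (m + 1)) *
        (1 / 2 * |x' (k + 1) - x' (m + 1)| ^ 2 - 1 / 2 * |x' (k + 1) - x' (m + 1)| + 1 / 12)
      ≤ ∑ k ∈ range N, ∑ m ∈ range N, f (i (k + 1)) (i (m + 1)) *
        (1 / 2 * |x (k + 1) - x (m + 1)| ^ 2 - 1 / 2 * |x (k + 1) - x (m + 1)| + 1 / 12) := by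
  obtain ⟨M, v, hv, hfv⟩ := admissible_decomp f hf hf1
  have swap : ∀ (j : ℕ → Fin 3) (W : ℕ → ℕ → ℝ),
      ∑ k ∈ range N, ∑ m ∈ range N, f (j (k + 1)) (j (m + 1)) * W k m
        = ∑ r, ∑ k ∈ range N, ∑ m ∈ range N, v r (j (k + 1)) * v r (j (m + 1)) * W k m := by
    intro j W
    simp only [hfv, sum_mul]
    rw [sum_comm (s := univ)]
    refine sum_congr rfl fun k _ => ?_
    rw [sum_comm]
  rw [swap i' (fun k m => 1 / 2 * |x' (k + 1) - x' (m + 1)| ^ 2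
      - 1 / 2 * |x' (k + 1) - x' (m + 1)| + 1 / 12),
    swap i (fun k m => 1 / 2 * |x (k + 1) - x (m + 1)| ^ 2
      - 1 / 2 * |x (k + 1) - x (m + 1)| + 1 / 12)]
  exact sum_le_sum fun r _ => rank_one_compare ν hν ω (v r) hω hω1 (hv r) N i x hi hx hcnt
    i' x' hi' hx' hcnt' (hcyc (v r) (hv r))

/-- Sums over the balls of a function of the type. -/
lemma sum_types (n N : ℕ) (i : ℕ → Fin 3)
    (h : ∀ t : Fin 3, ((Icc 1 N).filter (fun k => i k = t)).card = n) (F : Fin 3 → ℝ) :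
    ∑ k ∈ range N, F (i (k + 1)) = (n : ℝ) * (F 0 + F 1 + F 2) := by
  have h1 : ∑ k ∈ range N, F (i (k + 1)) = ∑ k ∈ Icc 1 N, F (i k) := by
    rw [range_eq_Ico, sum_Ico_add' (fun k => F (i k)) 0 N 1]
    rfl
  rw [h1, ← sum_fiberwise (Icc 1 N) i (fun k => F (i k))]
  have h2 : ∀ t : Fin 3, ∑ k ∈ (Icc 1 N).filter (fun k => i k = t), F (i k) = n * F t := by
    intro t
    rw [sum_congr rfl (g := fun _ => F t) (fun k hk => by rw [(mem_filter.1 hk).2]), sum_const,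
      h t, nsmul_eq_mul]
  rw [Fin.sum_univ_three, h2, h2, h2]; ring

lemma sum_Icc_one (N : ℕ) (F : ℕ → ℝ) : ∑ k ∈ Icc 1 N, F k = ∑ k ∈ range N, F (k + 1) := by
  rw [range_eq_Ico, sum_Ico_add' F 0 N 1]
  rfl

end Pool.Agent.P.MP_c8d2d2_an
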